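import Mathlib

/-!
Weak hitting sets of rich rectangles (MP_58257a_co): definitions.

The points of a finite plane set in general position are the elements `i` of a finite type `ι`,
the point `i` lies at `(x i, y i)` with `x`, `y` injective.
-/

set_option autoImplicit false

namespace Pool.Agent.helper11.WH

open Finset

/-- `(u, v)` is an empty increasing box: `v` is to the upper right of `u` and no point lies strictly
inside the box spanned by `u` and `v`. -/
def Cov {ι : Type*} (x y : ι → ℤ) (e : ι × ι) : Prop :=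
  x e.1 < x e.2 ∧ y e.1 < y e.2 ∧
    ∀ s, ¬ (x e.1 < x s ∧ x s < x e.2 ∧ y e.1 < y s ∧ y s < y e.2)

/-- The open boxes of `e` and `f` overlap. -/
def Ov {ι : Type*} (x y : ι → ℤ) (e f : ι × ι) : Prop :=
  x e.1 < x f.2 ∧ y e.1 < y f.2 ∧ x f.1 < x e.2 ∧ y f.1 < y e.2

/-- The unit cell with lower left corner `z` lies in the box of `e`. -/
def InB {ι : Type*} (x y : ι → ℤ) (z : ℤ × ℤ) (e : ι × ι) : Prop :=
  x e.1 ≤ z.1 ∧ z.1 < x e.2 ∧ y e.1 ≤ z.2 ∧ z.2 < y e.2

/-- A system `Q` of pairwise non overlapping empty boxes with corners in `I`. -/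
structure Sys {ι : Type*} (x y : ι → ℤ) (I : Finset ι) (Q : Finset (ι × ι)) : Prop where
  memL : ∀ e ∈ Q, e.1 ∈ I
  memR : ∀ e ∈ Q, e.2 ∈ I
  cov : ∀ e ∈ Q, Cov x y e
  dis : ∀ e ∈ Q, ∀ f ∈ Q, Ov x y e f → e = f

/-- The starts: the points outside `V` without predecessor. -/
noncomputable def St {ι : Type*} [Fintype ι] (V : Finset ι) (Q : Finset (ι × ι)) : Finset ι := by
  classical exact univ.filter (fun s => s ∉ V ∧ ∀ u, (u, s) ∉ Q)

/-- The ends: the points outside `V` without successor. -/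
noncomputable def En {ι : Type*} [Fintype ι] (V : Finset ι) (Q : Finset (ι × ι)) : Finset ι := by
  classical exact univ.filter (fun s => s ∉ V ∧ ∀ w, (s, w) ∉ Q)

/-- `s` lies in the lower right rectangle of the vertex `r` with predecessor `u` and successor `w`. -/
def InR {ι : Type*} (x y : ι → ℤ) (u r w s : ι) : Prop :=
  x r < x s ∧ x s < x w ∧ y u < y s ∧ y s < y r

/-- `r` is a critical vertex of `Q`: it has a predecessor `u` and a successor `w`, and no point at all
lies in its lower right rectangle. -/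
def Crit {ι : Type*} (x y : ι → ℤ) (Q : Finset (ι × ι)) (r : ι) : Prop :=
  ∃ u w, (u, r) ∈ Q ∧ (r, w) ∈ Q ∧ ∀ s, ¬ InR x y u r w s

/-- `C` is a good set for the system `Q` on the complement of `V`: critical vertices, no two
consecutive. -/
structure Good {ι : Type*} (x y : ι → ℤ) (V : Finset ι) (Q : Finset (ι × ι)) (C : Finset ι) :
    Prop where
  notV : ∀ r ∈ C, r ∉ V
  crit : ∀ r ∈ C, Crit x y Q r
  nc : ∀ r ∈ C, ∀ w, (r, w) ∈ Q → w ∉ C

theorem mem_St {ι : Type*} [Fintype ι] {V : Finset ι} {Q : Finset (ι × ι)} {s : ι} :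
    s ∈ St V Q ↔ s ∉ V ∧ ∀ u, (u, s) ∉ Q := by
  classical
  simp [St]

theorem mem_En {ι : Type*} [Fintype ι] {V : Finset ι} {Q : Finset (ι × ι)} {s : ι} :
    s ∈ En V Q ↔ s ∉ V ∧ ∀ w, (s, w) ∉ Q := by
  classical
  simp [En]

end Pool.Agent.helper11.WH
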