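import Mathlib
import Pool.Agent.helper52.WH.ES
import Pool.Agent.helper52.WH.RE
import Pool.Agent.helper55.WH.CH
import Pool.Agent.helper55.WH.FI

/-!
WH project (MP_58257a_co): final assembly.
-/

set_option autoImplicit false

namespace Pool.Agent.helper11.WH

theorem chains_real (r : ℕ) (P : Finset (ℝ × ℝ)) :
    ∃ Z : Finset (ℝ × ℝ), (Z.card : ℝ) ≤ (999 / 1000 : ℝ) ^ r * P.card ∧
      ∀ f : ℕ → ℝ × ℝ, (∀ i, i < 2 ^ r → f i ∈ P) → (∀ i, i + 1 < 2 ^ r → f i < f (i + 1)) →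
        ∃ z ∈ Z, f 0 ≤ z ∧ z ≤ f (2 ^ r - 1) :=
  chains_real_of pairs_real r P

theorem rich (r : ℕ) (A : Finset (ℝ × ℝ)) :
    ∃ A' : Finset (ℝ × ℝ), (A'.card : ℝ) ≤ 2 * (999 / 1000 : ℝ) ^ r * A.card ∧
      ∀ x₁ x₂ y₁ y₂ : ℝ,
        4 ^ r ≤ (A.filter (fun p => x₁ ≤ p.1 ∧ p.1 ≤ x₂ ∧ y₁ ≤ p.2 ∧ p.2 ≤ y₂)).card →
        ∃ q ∈ A', x₁ ≤ q.1 ∧ q.1 ≤ x₂ ∧ y₁ ≤ q.2 ∧ q.2 ≤ y₂ :=
  rich_of refl (fun _ => rfl) chains_real erdos_szekeres r A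

theorem rich_half (r : ℕ) (A : Finset (ℝ × ℝ)) :
    ∃ A' : Finset (ℝ × ℝ), (A'.card : ℝ) ≤ 2 * (999 / 1000 : ℝ) ^ r * A.card ∧
      (1386 ≤ r → A'.card ≤ A.card / 2) ∧
      ∀ x₁ x₂ y₁ y₂ : ℝ,
        4 ^ r ≤ (A.filter (fun p => x₁ ≤ p.1 ∧ p.1 ≤ x₂ ∧ y₁ ≤ p.2 ∧ p.2 ≤ y₂)).card →
        ∃ q ∈ A', x₁ ≤ q.1 ∧ q.1 ≤ x₂ ∧ y₁ ≤ q.2 ∧ q.2 ≤ y₂ := by
  obtain ⟨A', h1, h2⟩ := rich r A
  refine ⟨A', h1, ?_, h2⟩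
  intro hr
  rw [Nat.le_div_iff_mul_le (by norm_num)]
  have h3 : (0 : ℝ) ≤ (A.card : ℝ) := by positivity
  have h6 : (999 / 1000 : ℝ) ^ r ≤ 1 / 4 :=
    le_trans (pow_le_pow_of_le_one (by norm_num) (by norm_num) hr) pow_quarter
  have h8 : 2 * (999 / 1000 : ℝ) ^ r ≤ 1 / 2 := by
    generalize (999 / 1000 : ℝ) ^ r = t at h6
    linarith
  have h4 : (A'.card : ℝ) ≤ 1 / 2 * (A.card : ℝ) := by
    calc (A'.card : ℝ) ≤ 2 * (999 / 1000 : ℝ) ^ r * A.card := h1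
      _ ≤ (1 / 2) * (A.card : ℝ) := by
        exact mul_le_mul_of_nonneg_right h8 h3
  have h7 : (A'.card : ℝ) * 2 ≤ (A.card : ℝ) := by linarith
  exact_mod_cast h7

end Pool.Agent.helper11.WH
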