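import Mathlib
import Pool.Agent.helper11.WH.Defs

/-!
WH project (MP_58257a_co), module IN: the decoding.
-/

set_option autoImplicit false
set_option linter.unusedSectionVars false

namespace Pool.Agent.helper11.WH

open Finset

namespace INaux

section

variable {ι : Type*} {x y : ι → ℤ} {I : Finset ι} {Q : Finset (ι × ι)}

theorem outU (hQ : Sys x y I Q) {u v w : ι} (h1 : (u, v) ∈ Q) (h2 : (u, w) ∈ Q) : v = w := by
  have a := hQ.cov _ h1
  have b := hQ.cov _ h2
  have := hQ.dis _ h1 _ h2 ⟨b.1, b.2.1, a.1, a.2.1⟩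
  simpa using this

theorem inU (hQ : Sys x y I Q) {u v w : ι} (h1 : (u, w) ∈ Q) (h2 : (v, w) ∈ Q) : u = v := by
  have a := hQ.cov _ h1
  have b := hQ.cov _ h2
  have := hQ.dis _ h1 _ h2 ⟨a.1, a.2.1, b.1, b.2.1⟩
  simpa using this

/-- two edges alive at a common time have disjoint `y` intervals -/
theorem alv (hQ : Sys x y I Q) {a b c d : ι} (h1 : (a, b) ∈ Q) (h2 : (c, d) ∈ Q)
    (hne : (a, b) ≠ (c, d)) (h3 : x a < x d) (h4 : x c < x b) : y b ≤ y c ∨ y d ≤ y a := by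
  by_contra hcon
  push Not at hcon
  exact hne (hQ.dis _ h1 _ h2 ⟨h3, hcon.2, h4, hcon.1⟩)

/-- the predecessor of `r` is the highest head below `r` -/
theorem tp (hQ : Sys x y I Q) {u r a b : ι} (h1 : (u, r) ∈ Q) (h2 : (a, b) ∈ Q)
    (h3 : x a < x r) (h4 : x r ≤ x b) (h5 : y a < y r) : y a ≤ y u := by
  have c1 := (hQ.cov _ h1)
  have c2 := (hQ.cov _ h2)
  by_cases hne : (a, b) = (u, r)
  · simp only [Prod.mk.injEq] at hne
    rw [hne.1]
  · have h := alv hQ h2 h1 hne h3 (lt_of_lt_of_le c1.1 h4)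
    have := c2.2.1
    simp only at this
    omega

end

section

variable {ι : Type*} [Fintype ι] [DecidableEq ι] {x y : ι → ℤ} {V : Finset ι}
  {Q : Finset (ι × ι)} {F : Finset ι}

/-- the decoded predecessor -/
def EE {ι : Type*} (Q : Finset (ι × ι)) (F : Finset ι) (s a : ι) : Prop :=
  ∃ u, (u, s) ∈ Q ∧ ((u ∉ F ∧ a = u) ∨ (u ∈ F ∧ (a, u) ∈ Q))

theorem empR {I : Finset ι} (hQ : Sys x y I Q) (hF : Good x y V Q F) {u r w : ι} (hr : r ∈ F)
    (h1 : (u, r) ∈ Q) (h2 : (r, w) ∈ Q) (s : ι) : ¬ InR x y u r w s := by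
  obtain ⟨u', w', h3, h4, h5⟩ := hF.crit r hr
  rw [inU hQ h1 h3, outU hQ h2 h4]
  exact h5 s

theorem EE_ex {I : Finset ι} (_hQ : Sys x y I Q) (hF : Good x y V Q F) {s u : ι}
    (h : (u, s) ∈ Q) : ∃ a, EE Q F s a := by
  by_cases hu : u ∈ F
  · obtain ⟨u', w', h3, h4, h5⟩ := hF.crit u hu
    exact ⟨u', u, h, Or.inr ⟨hu, h3⟩⟩
  · exact ⟨u, u, h, Or.inl ⟨hu, rfl⟩⟩

theorem EE_un {I : Finset ι} (hQ : Sys x y I Q) {s a b : ι} (h1 : EE Q F s a)
    (h2 : EE Q F s b) : a = b := by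
  obtain ⟨u, hu, h⟩ := h1
  obtain ⟨v, hv, h'⟩ := h2
  obtain rfl := inU hQ hu hv
  rcases h with ⟨h, rfl⟩ | ⟨h, h3⟩ <;> rcases h' with ⟨h', rfl⟩ | ⟨h', h4⟩
  · rfl
  · exact absurd h' h
  · exact absurd h h'
  · exact inU hQ h3 h4

theorem D1 (hQ : Sys x y Vᶜ Q) (hF : Good x y V Q F) {s a : ι} (hs : s ∉ F)
    (h : EE Q F s a) : a ∉ V ∧ a ∉ F ∧ a ∉ En V Q ∧ x a < x s ∧ y a < y s ∧
      ∀ s', s' ∉ F → x s' < x s → ¬ EE Q F s' a := by
  obtain ⟨u, hu, h⟩ := h
  have cu := hQ.cov _ hu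
  simp only [Cov] at cu
  rcases h with ⟨huF, rfl⟩ | ⟨huF, hau⟩
  · refine ⟨by simpa using hQ.memL _ hu, huF, ?_, cu.1, cu.2.1, ?_⟩
    · rw [mem_En]
      rintro ⟨-, h⟩
      exact h _ hu
    · rintro s' hs' hxs ⟨u', hu', ⟨hu'F, rfl⟩ | ⟨hu'F, h3⟩⟩
      · have := outU hQ hu hu'
        subst this
        omega
      · have := outU hQ hu h3
        subst this
        exact hs hu'F
  · have ca := hQ.cov _ hau
    simp only [Cov] at ca
    refine ⟨by simpa using hQ.memL _ hau, ?_, ?_, by omega, by omega, ?_⟩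
    · intro haF
      exact hF.nc a haF u hau huF
    · rw [mem_En]
      rintro ⟨-, h⟩
      exact h _ hau
    · rintro s' hs' hxs ⟨u', hu', ⟨hu'F, rfl⟩ | ⟨hu'F, h3⟩⟩
      · have := outU hQ hau hu'
        subst this
        exact hs' huF
      · have := outU hQ hau h3
        subst this
        have := outU hQ hu hu'
        subst this
        omega

theorem D2 (hx : Function.Injective x) (hy : Function.Injective y)
    (hQ : Sys x y Vᶜ Q) (hF : Good x y V Q F) {s a c : ι} (hs : s ∉ F)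
    (h : EE Q F s a) (hcV : c ∉ V) (hcF : c ∉ F) (hcE : c ∉ En V Q) (hxc : x c < x s)
    (hyc : y c < y s) (hpop : ∀ s', s' ∉ V → s' ∉ F → x s' < x s → ¬ EE Q F s' c) :
    y c ≤ y a := by
  obtain ⟨u, hu, h⟩ := h
  have cu := hQ.cov _ hu
  simp only [Cov] at cu
  rw [mem_En] at hcE
  push Not at hcE
  obtain ⟨b, hb⟩ := hcE hcV
  have cb := hQ.cov _ hb
  simp only [Cov] at cb
  -- an alive head `c` which is at most `u`
  have key : x s ≤ x b → y c ≤ y a := by
    intro hsb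
    have h1 : y c ≤ y u := tp hQ hu hb hxc hsb hyc
    rcases h with ⟨huF, rfl⟩ | ⟨huF, hau⟩
    · exact h1
    · have hcu : c ≠ u := fun h => hcF (h ▸ huF)
      have hyu : y c ≠ y u := fun h => hcu (hy h)
      have hxu : x c ≠ x u := fun h => hcu (hx h)
      by_contra hcon
      push Not at hcon
      rcases lt_or_gt_of_ne hxu with h2 | h2
      · have := tp hQ hau hb h2 (by omega) (by omega)
        omega
      · exact empR hQ hF huF hau hu c ⟨h2, by omega, by omega, by omega⟩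
  by_cases hbF : b ∈ F
  · obtain ⟨c', w, h3, h4, h5⟩ := hF.crit b hbF
    obtain rfl := inU hQ hb h3
    have cw := hQ.cov _ h4
    simp only [Cov] at cw
    have hwF := hF.nc b hbF w h4
    have hwV : w ∉ V := by simpa using hQ.memR _ h4
    have hsw : x s ≤ x w := by
      by_contra hcon
      exact hpop w hwV hwF (by omega) ⟨b, h4, Or.inr ⟨hbF, hb⟩⟩
    by_cases hsb : x s ≤ x b
    · exact key hsb
    · push Not at hsb
      have hyne : y b ≠ y s := by
        intro h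
        have := hy h
        subst this
        omega
      rcases lt_or_gt_of_ne hyne with h6 | h6
      · -- `b` is below `s`
        have h7 : y b ≤ y u := tp hQ hu h4 hsb hsw h6
        rcases h with ⟨huF, rfl⟩ | ⟨huF, hau⟩
        · omega
        · by_cases hbu : b = u
          · subst hbu
            have := inU hQ hb hau
            subst this
            exact le_rfl
          · have hyu : y b ≠ y u := fun h => hbu (hy h)
            have hxu : x b ≠ x u := fun h => hbu (hx h)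
            by_contra hcon
            push Not at hcon
            rcases lt_or_gt_of_ne hxu with h2 | h2
            · have := tp hQ hau h4 h2 (by omega) (by omega)
              omega
            · exact empR hQ hF huF hau hu b ⟨h2, by omega, by omega, by omega⟩
      · -- `s` is in the rectangle of `b` or `s = w`
        by_cases hsw2 : x s = x w
        · have hsw3 : s = w := hx hsw2
          subst hsw3
          omega
        · exact absurd ⟨hsb, by omega, by omega, h6⟩ (h5 s)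
  · refine key ?_
    by_contra hcon
    have hbV : b ∉ V := by simpa using hQ.memR _ hb
    exact hpop b hbV hbF (by omega) ⟨c, hb, Or.inl ⟨hcF, rfl⟩⟩

/-- recovering `F` -/
theorem memF_iff (hx : Function.Injective x) (hy : Function.Injective y)
    (hQ : Sys x y Vᶜ Q) (hF : Good x y V Q F) (r : ι) :
    r ∈ F ↔ ∃ s, s ∉ V ∧ s ∉ F ∧ ∃ a, EE Q F s a ∧
      (x a < x r ∧ x r < x s ∧ y a < y r ∧ y r < y s) ∧
      ∀ t, x a < x t → x t < x s → y a < y t → y t < y s → x t ≤ x r := by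
  constructor
  · intro hr
    obtain ⟨u, w, h1, h2, h3⟩ := hF.crit r hr
    have c1 := hQ.cov _ h1
    have c2 := hQ.cov _ h2
    simp only [Cov] at c1 c2
    refine ⟨w, by simpa using hQ.memR _ h2, hF.nc r hr w h2, u, ⟨r, h2, Or.inr ⟨hr, h1⟩⟩,
      ⟨c1.1, c2.1, c1.2.1, c2.2.1⟩, ?_⟩
    intro t t1 t2 t3 t4
    by_contra hcon
    push Not at hcon
    have hne : y t ≠ y r := by
      intro h
      have := hy h
      subst this
      omega
    rcases lt_or_gt_of_ne hne with h | h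
    · exact h3 t ⟨hcon, t2, t3, h⟩
    · exact c2.2.2 t ⟨hcon, t2, h, t4⟩
  · rintro ⟨s, hsV, hsF, a, ⟨u, hu, h⟩, hr, hmax⟩
    rcases h with ⟨huF, rfl⟩ | ⟨huF, hau⟩
    · exact absurd hr (fun h => (hQ.cov _ hu).2.2 r ⟨h.1, h.2.1, h.2.2.1, h.2.2.2⟩)
    · have cu := hQ.cov _ hu
      have cau := hQ.cov _ hau
      simp only [Cov] at cu cau
      have h1 := hmax u cau.1 cu.1 cau.2.1 cu.2.1
      by_cases hru : r = u
      · rwa [hru]
      · exfalso
        have hxr : x u ≠ x r := fun h => hru (hx h).symm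
        have hyr : y u ≠ y r := fun h => hru (hy h).symm
        rcases lt_or_gt_of_ne hyr with h2 | h2
        · exact cu.2.2 r ⟨by omega, hr.2.1, h2, hr.2.2.2⟩
        · exact empR hQ hF huF hau hu r ⟨by omega, hr.2.1, hr.2.2.1, h2⟩

end

end INaux

open INaux in
theorem decode {ι : Type*} [Fintype ι] [DecidableEq ι] {x y : ι → ℤ} (hx : Function.Injective x)
    (hy : Function.Injective y) {V₁ V₂ : Finset ι} {Q₁ Q₂ : Finset (ι × ι)}
    (hQ₁ : Sys x y V₁ᶜ Q₁) (hQ₂ : Sys x y V₂ᶜ Q₂) {F₁ F₂ : Finset ι}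
    (hF₁ : Good x y V₁ Q₁ F₁) (hF₂ : Good x y V₂ Q₂ F₂)
    (hW : V₁ ∪ F₁ = V₂ ∪ F₂) (hS : St V₁ Q₁ = St V₂ Q₂) (hE : En V₁ Q₁ = En V₂ Q₂) :
    V₁ = V₂ ∧ F₁ = F₂ := by
  have hmem : ∀ s, (s ∉ V₁ ∧ s ∉ F₁) ↔ (s ∉ V₂ ∧ s ∉ F₂) := by
    intro s
    have := Finset.ext_iff.mp hW s
    simp only [Finset.mem_union] at this
    tauto
  -- existence of decoded predecessors
  have ex₁ : ∀ s, s ∉ V₁ → s ∉ St V₁ Q₁ → ∃ a, EE Q₁ F₁ s a := by
    intro s h1 h2
    rw [mem_St] at h2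
    push Not at h2
    obtain ⟨u, hu⟩ := h2 h1
    exact EE_ex hQ₁ hF₁ hu
  have ex₂ : ∀ s, s ∉ V₂ → s ∉ St V₂ Q₂ → ∃ a, EE Q₂ F₂ s a := by
    intro s h1 h2
    rw [mem_St] at h2
    push Not at h2
    obtain ⟨u, hu⟩ := h2 h1
    exact EE_ex hQ₂ hF₂ hu
  have nst₁ : ∀ s a, EE Q₁ F₁ s a → s ∉ V₁ ∧ s ∉ St V₁ Q₁ := by
    rintro s a ⟨u, hu, -⟩
    refine ⟨by simpa using hQ₁.memR _ hu, ?_⟩
    rw [mem_St]
    rintro ⟨-, h⟩
    exact h _ hu
  have nst₂ : ∀ s a, EE Q₂ F₂ s a → s ∉ V₂ ∧ s ∉ St V₂ Q₂ := by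
    rintro s a ⟨u, hu, -⟩
    refine ⟨by simpa using hQ₂.memR _ hu, ?_⟩
    rw [mem_St]
    rintro ⟨-, h⟩
    exact h _ hu
  -- the two decoders agree
  have main : ∀ n : ℕ, ∀ s, (Finset.univ.filter (fun t => x t < x s)).card = n →
      (s ∉ V₁ ∧ s ∉ F₁) → ∀ a b, EE Q₁ F₁ s a → EE Q₂ F₂ s b → a = b := by
    intro n
    induction n using Nat.strong_induction_on with
    | _ n ih =>
      intro s hn hs a b ha hb
      have hs' := (hmem s).1 hs
      -- agreement for earlier points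
      have agree : ∀ s', (s' ∉ V₁ ∧ s' ∉ F₁) → x s' < x s → ∀ c, EE Q₁ F₁ s' c ↔ EE Q₂ F₂ s' c := by
        intro s' hs' hxs c
        have hlt : (Finset.univ.filter (fun t => x t < x s')).card < n := by
          rw [← hn]
          apply Finset.card_lt_card
          rw [Finset.ssubset_iff_of_subset]
          · exact ⟨s', by simpa using hxs, by simp⟩
          · intro t ht
            simp only [Finset.mem_filter, Finset.mem_univ, true_and] at ht ⊢
            omega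
        have h2 := (hmem s').1 hs'
        constructor
        · intro h
          have h3 := nst₁ _ _ h
          rw [hS] at h3
          obtain ⟨d, hd⟩ := ex₂ s' h2.1 h3.2
          have := ih _ hlt s' rfl hs' c d h hd
          rwa [this]
        · intro h
          have h3 := nst₂ _ _ h
          rw [← hS] at h3
          obtain ⟨d, hd⟩ := ex₁ s' hs'.1 h3.2
          have := ih _ hlt s' rfl hs' d c hd h
          rwa [← this]
      obtain ⟨a1, a2, a3, a4, a5, a6⟩ := D1 hQ₁ hF₁ hs.2 ha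
      obtain ⟨b1, b2, b3, b4, b5, b6⟩ := D1 hQ₂ hF₂ hs'.2 hb
      have e1 : y a ≤ y b := by
        have haa := (hmem a).1 ⟨a1, a2⟩
        refine D2 hx hy hQ₂ hF₂ hs'.2 hb haa.1 haa.2 (hE ▸ a3) a4 a5 ?_
        intro s' h1 h2 h3 h4
        have h5 := (hmem s').2 ⟨h1, h2⟩
        exact a6 s' h5.2 h3 ((agree s' h5 h3 a).2 h4)
      have e2 : y b ≤ y a := by
        have hbb := (hmem b).2 ⟨b1, b2⟩
        refine D2 hx hy hQ₁ hF₁ hs.2 ha hbb.1 hbb.2 (hE ▸ b3) b4 b5 ?_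
        intro s' h1 h2 h3 h4
        have h5 := (hmem s').1 ⟨h1, h2⟩
        exact b6 s' h5.2 h3 ((agree s' ⟨h1, h2⟩ h3 b).1 h4)
      exact hy (le_antisymm e1 e2)
  have agree : ∀ s, (s ∉ V₁ ∧ s ∉ F₁) → ∀ c, EE Q₁ F₁ s c ↔ EE Q₂ F₂ s c := by
    intro s hs c
    have h2 := (hmem s).1 hs
    constructor
    · intro h
      have h3 := nst₁ _ _ h
      rw [hS] at h3
      obtain ⟨d, hd⟩ := ex₂ s h2.1 h3.2
      have := main _ s rfl hs c d h hd
      rwa [this]
    · intro h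
      have h3 := nst₂ _ _ h
      rw [← hS] at h3
      obtain ⟨d, hd⟩ := ex₁ s hs.1 h3.2
      have := main _ s rfl hs d c hd h
      rwa [← this]
  have hFF : F₁ = F₂ := by
    ext r
    rw [memF_iff hx hy hQ₁ hF₁, memF_iff hx hy hQ₂ hF₂]
    constructor
    · rintro ⟨s, h1, h2, a, h3, h4⟩
      have h5 := (hmem s).1 ⟨h1, h2⟩
      exact ⟨s, h5.1, h5.2, a, (agree s ⟨h1, h2⟩ a).1 h3, h4⟩
    · rintro ⟨s, h1, h2, a, h3, h4⟩
      have h5 := (hmem s).2 ⟨h1, h2⟩
      exact ⟨s, h5.1, h5.2, a, (agree s h5 a).2 h3, h4⟩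
  refine ⟨?_, hFF⟩
  have hd1 : ∀ r ∈ F₁, r ∉ V₁ := hF₁.notV
  have hd2 : ∀ r ∈ F₂, r ∉ V₂ := hF₂.notV
  ext r
  have := Finset.ext_iff.mp hW r
  simp only [Finset.mem_union] at this
  have h1 := hd1 r
  have h2 := hd2 r
  rw [← hFF] at h2 this
  tauto

end Pool.Agent.helper11.WH
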