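import Mathlib
import Pool.Agent.helper11.WH.Defs
import Pool.Agent.helper76.WH.MI

/-!
WH project (MP_58257a_co), module MM: the min-max theorem.
-/

set_option autoImplicit false
set_option linter.unusedSectionVars false

namespace Pool.Agent.helper11.WH

open Finset

namespace MMaux

variable {ι : Type*} [Fintype ι] [DecidableEq ι] {x y : ι → ℤ}

/-- the empty boxes with corners in `I` avoiding the blocked cells `B` -/
noncomputable def BX (x y : ι → ℤ) (I : Finset ι) (B : Finset (ℤ × ℤ)) : Finset (ι × ι) := by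
  classical
  exact univ.filter (fun e => e.1 ∈ I ∧ e.2 ∈ I ∧ Cov x y e ∧ ∀ z ∈ B, ¬ InB x y z e)

theorem mem_BX {I : Finset ι} {B : Finset (ℤ × ℤ)} {e : ι × ι} :
    e ∈ BX x y I B ↔ e.1 ∈ I ∧ e.2 ∈ I ∧ Cov x y e ∧ ∀ z ∈ B, ¬ InB x y z e := by
  classical
  simp [BX]

/-- the grid -/
noncomputable def GR (x y : ι → ℤ) : Finset (ℤ × ℤ) := (univ.image x) ×ˢ (univ.image y)

theorem mem_GR (a b : ι) : (x a, y b) ∈ GR x y := by
  simp [GR]

/-- `e` is taller and narrower than `f` -/
def TL (x y : ι → ℤ) (e f : ι × ι) : Prop :=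
  x f.1 ≤ x e.1 ∧ x e.2 ≤ x f.2 ∧ y e.1 ≤ y f.1 ∧ y f.2 ≤ y e.2 ∧ (x f.1 < x e.1 ∨ x e.2 < x f.2)

/-- `f` is a lower right shift of `e` -/
def SH (x y : ι → ℤ) (e f : ι × ι) : Prop :=
  x e.1 < x f.1 ∧ x f.1 < x e.2 ∧ x e.2 < x f.2 ∧ y f.1 < y e.1 ∧ y e.1 < y f.2 ∧ y f.2 < y e.2

theorem cases (hx : Function.Injective x) (hy : Function.Injective y) {e f : ι × ι}
    (he : Cov x y e) (hf : Cov x y f) (hne : e ≠ f) (ho : Ov x y e f) :
    TL x y e f ∨ TL x y f e ∨ SH x y e f ∨ SH x y f e := by
  have h1 : x e.1 = x f.1 ↔ y e.1 = y f.1 :=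
    ⟨fun h => by rw [hx h], fun h => by rw [hy h]⟩
  have h2 : x e.2 = x f.2 ↔ y e.2 = y f.2 :=
    ⟨fun h => by rw [hx h], fun h => by rw [hy h]⟩
  have h3 : ¬ (x e.1 = x f.1 ∧ x e.2 = x f.2) := by
    rintro ⟨a, b⟩
    exact hne (Prod.ext (hx a) (hx b))
  obtain ⟨e1, e2, e3⟩ := he
  obtain ⟨f1, f2, f3⟩ := hf
  have a1 := e3 f.1
  have a2 := e3 f.2
  have a3 := f3 e.1
  have a4 := f3 e.2
  unfold Ov at ho
  unfold TL SH
  omega

theorem ov_of_TL {e f : ι × ι} (he : Cov x y e) (hf : Cov x y f) (h : TL x y e f) :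
    Ov x y e f := by
  unfold Cov at he hf
  unfold TL at h
  unfold Ov
  omega

theorem ov_symm {e f : ι × ι} (h : Ov x y e f) : Ov x y f e := by
  unfold Ov at *
  omega

/-- coverage indicator -/
noncomputable def cv (x y : ι → ℤ) (z : ℤ × ℤ) (e : ι × ι) : ℕ := by
  classical exact if InB x y z e then 1 else 0

theorem cv_one {z : ℤ × ℤ} {e : ι × ι} (h : InB x y z e) : cv x y z e = 1 := by
  classical
  simp [cv, h]

theorem cv_zero {z : ℤ × ℤ} {e : ι × ι} (h : ¬ InB x y z e) : cv x y z e = 0 := by
  classical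
  simp [cv, h]

theorem cv_swap {e f : ι × ι} (h : SH x y e f) (z : ℤ × ℤ) :
    cv x y z (e.1, f.2) + cv x y z (f.1, e.2) ≤ cv x y z e + cv x y z f := by
  classical
  unfold cv InB SH at *
  simp only
  split_ifs <;> omega

/-- area -/
noncomputable def ar (x y : ι → ℤ) (e : ι × ι) : ℕ := ∑ z ∈ GR x y, cv x y z e

theorem ar_swap {e f : ι × ι} (h : SH x y e f) :
    ar x y (e.1, f.2) + ar x y (f.1, e.2) < ar x y e + ar x y f := by
  unfold ar
  rw [← Finset.sum_add_distrib, ← Finset.sum_add_distrib]
  apply Finset.sum_lt_sum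
  · intro z _
    exact cv_swap h z
  · refine ⟨(x e.1, y f.2), mem_GR _ _, ?_⟩
    unfold SH at h
    rw [cv_zero (e := (e.1, f.2)), cv_zero (e := (f.1, e.2)), cv_one (e := e)]
    · omega
    · unfold InB
      simp only
      omega
    · unfold InB
      simp only
      omega
    · unfold InB
      simp only
      omega

theorem swap_mem {I : Finset ι} {B : Finset (ℤ × ℤ)} {e f : ι × ι}
    (he : e ∈ BX x y I B) (hf : f ∈ BX x y I B) (h : SH x y e f) :
    (e.1, f.2) ∈ BX x y I B ∧ (f.1, e.2) ∈ BX x y I B := by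
  rw [mem_BX] at he hf
  obtain ⟨e1, e2, ⟨e3, e4, e5⟩, e6⟩ := he
  obtain ⟨f1, f2, ⟨f3, f4, f5⟩, f6⟩ := hf
  unfold SH at h
  rw [mem_BX, mem_BX]
  refine ⟨⟨e1, f2, ⟨by simp only; omega, by simp only; omega, ?_⟩, ?_⟩,
    ⟨f1, e2, ⟨by simp only; omega, by simp only; omega, ?_⟩, ?_⟩⟩
  · intro s hs
    have := e5 s
    have := f5 s
    simp only at hs
    by_cases h1 : x s < x e.2
    · omega
    · omega
  · intro z hz hin
    have h1 := e6 z hz
    have h2 := f6 z hz
    unfold InB at *
    simp only at hin
    omega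
  · intro s hs
    have := e5 s
    have := f5 s
    simp only at hs
    omega
  · intro z hz hin
    have h1 := e6 z hz
    have h2 := f6 z hz
    unfold InB at *
    simp only at hin
    omega

/-- the swapped weight -/
theorem swap_weight {A : Finset (ι × ι)} {w : ι × ι → ℕ} {e f e' f' : ι × ι} (he : e ∈ A)
    (hf : f ∈ A) (he' : e' ∈ A) (hf' : f' ∈ A) (hne : e ≠ f) (h1 : 0 < w e) (h2 : 0 < w f) :
    ∃ w' : ι × ι → ℕ, ∀ c : ι × ι → ℕ,
      ∑ g ∈ A, w' g * c g + c e + c f = ∑ g ∈ A, w g * c g + c e' + c f' := by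
  refine ⟨fun g => w g - (if g = e then 1 else 0) - (if g = f then 1 else 0) +
    (if g = e' then 1 else 0) + (if g = f' then 1 else 0), fun c => ?_⟩
  have key : ∀ g, (w g - (if g = e then 1 else 0) - (if g = f then 1 else 0) +
      (if g = e' then 1 else 0) + (if g = f' then 1 else 0)) + (if g = e then 1 else 0) +
      (if g = f then 1 else 0) = w g + (if g = e' then 1 else 0) + (if g = f' then 1 else 0) := by
    intro g
    by_cases hge : g = e
    · subst hge
      have : g ≠ f := hne
      simp only [this, if_true, if_false]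
      omega
    · by_cases hgf : g = f
      · subst hgf
        simp only [hge, if_true, if_false]
        omega
      · simp only [hge, hgf, if_false]
        omega
  have s : ∀ a ∈ A, ∑ g ∈ A, (if g = a then 1 else 0) * c g = c a := by
    intro a ha
    simp [ha]
  have := s e he
  have := s f hf
  have := s e' he'
  have := s f' hf'
  have hh : ∑ g ∈ A, ((w g - (if g = e then 1 else 0) - (if g = f then 1 else 0) +
      (if g = e' then 1 else 0) + (if g = f' then 1 else 0)) + (if g = e then 1 else 0) +
      (if g = f then 1 else 0)) * c g =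
      ∑ g ∈ A, (w g + (if g = e' then 1 else 0) + (if g = f' then 1 else 0)) * c g :=
    Finset.sum_congr rfl (fun g _ => by rw [key g])
  rw [show (∑ g ∈ A, ((w g - (if g = e then 1 else 0) - (if g = f then 1 else 0) +
      (if g = e' then 1 else 0) + (if g = f' then 1 else 0)) + (if g = e then 1 else 0) +
      (if g = f then 1 else 0)) * c g) = ∑ g ∈ A, (w g - (if g = e then 1 else 0) -
      (if g = f then 1 else 0) + (if g = e' then 1 else 0) + (if g = f' then 1 else 0)) * c g +
      ∑ g ∈ A, (if g = e then 1 else 0) * c g + ∑ g ∈ A, (if g = f then 1 else 0) * c g from by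
        rw [← Finset.sum_add_distrib, ← Finset.sum_add_distrib]
        exact Finset.sum_congr rfl (fun g _ => by ring),
    show (∑ g ∈ A, (w g + (if g = e' then 1 else 0) + (if g = f' then 1 else 0)) * c g) =
      ∑ g ∈ A, w g * c g + ∑ g ∈ A, (if g = e' then 1 else 0) * c g +
      ∑ g ∈ A, (if g = f' then 1 else 0) * c g from by
        rw [← Finset.sum_add_distrib, ← Finset.sum_add_distrib]
        exact Finset.sum_congr rfl (fun g _ => by ring)] at hh
  beta_reduce
  omega

/-- fractional packing equals integral packing -/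
theorem frac (hx : Function.Injective x) (hy : Function.Injective y) (I : Finset ι)
    (B : Finset (ℤ × ℤ)) (k : ℕ) (w : ι × ι → ℕ)
    (hw : ∀ z ∈ GR x y, ∑ g ∈ BX x y I B, w g * cv x y z g ≤ k) :
    ∃ D ⊆ BX x y I B, (∀ e ∈ D, ∀ f ∈ D, Ov x y e f → e = f) ∧
      ∑ g ∈ BX x y I B, w g ≤ k * D.card := by
  classical
  set A := BX x y I B with hA
  let P : ℕ → Prop := fun n => ∃ w' : ι × ι → ℕ,
    (∀ z ∈ GR x y, ∑ g ∈ A, w' g * cv x y z g ≤ k) ∧ ∑ g ∈ A, w' g = ∑ g ∈ A, w g ∧
    ∑ g ∈ A, w' g * ar x y g = n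
  have hP : ∃ n, P n := ⟨_, w, hw, rfl, rfl⟩
  obtain ⟨w', h1, h2, h3⟩ := Nat.find_spec hP
  have hmin : ∀ m, m < Nat.find hP → ¬ P m := fun m hm => Nat.find_min hP hm
  rw [← h3] at hmin
  have nosh : ∀ e ∈ A, ∀ f ∈ A, 0 < w' e → 0 < w' f → ¬ SH x y e f := by
    intro e he f hf hwe hwf hsh
    obtain ⟨m1, m2⟩ := swap_mem he hf hsh
    have hne : e ≠ f := by
      rintro rfl
      unfold SH at hsh
      omega
    obtain ⟨w'', hc⟩ := swap_weight he hf m1 m2 hne hwe hwf
    refine hmin (∑ g ∈ A, w'' g * ar x y g) ?_ ⟨w'', ?_, ?_, rfl⟩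
    · have := hc (ar x y)
      have := ar_swap hsh
      omega
    · intro z hz
      have := hc (cv x y z)
      have := cv_swap hsh z
      have := h1 z hz
      omega
    · have := hc (fun _ => 1)
      simp only [mul_one] at this
      omega
  obtain ⟨D, hD1, hD2, hD3⟩ := exists_antichain (TL x y) (by intro a; unfold TL; omega)
    (by intro a b c; unfold TL; omega) (A.filter (fun e => 0 < w' e)) k w' (by
      intro C hC hch
      rcases C.eq_empty_or_nonempty with rfl | hne
      · simp
      · obtain ⟨a, ha, ha'⟩ := C.exists_max_image (fun e => x e.1) hne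
        obtain ⟨b, hb, hb'⟩ := C.exists_max_image (fun e => y e.1) hne
        have hov : ∀ e ∈ C, ∀ f ∈ C, Ov x y e f := by
          intro e he f hf
          have ce : Cov x y e := (mem_BX.1 (Finset.mem_filter.1 (hC he)).1).2.2.1
          have cf : Cov x y f := (mem_BX.1 (Finset.mem_filter.1 (hC hf)).1).2.2.1
          by_cases hef : e = f
          · subst hef
            unfold Cov at ce
            unfold Ov
            omega
          · rcases hch e he f hf hef with h | h
            · exact ov_of_TL ce cf h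
            · exact ov_symm (ov_of_TL cf ce h)
        have hz := h1 (x a.1, y b.1) (mem_GR _ _)
        calc ∑ e ∈ C, w' e = ∑ e ∈ C, w' e * cv x y (x a.1, y b.1) e := by
              refine Finset.sum_congr rfl (fun e he => ?_)
              rw [cv_one, mul_one]
              have o1 := hov a ha e he
              have o2 := hov b hb e he
              have := ha' e he
              have := hb' e he
              unfold Ov at o1 o2
              unfold InB
              simp only at *
              omega
          _ ≤ ∑ e ∈ A, w' e * cv x y (x a.1, y b.1) e :=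
              Finset.sum_le_sum_of_subset (fun e he => (Finset.mem_filter.1 (hC he)).1)
          _ ≤ k := hz)
  refine ⟨D, fun e he => (Finset.mem_filter.1 (hD1 he)).1, ?_, ?_⟩
  · intro e he f hf hov
    by_contra hne
    have me := Finset.mem_filter.1 (hD1 he)
    have mf := Finset.mem_filter.1 (hD1 hf)
    rcases cases hx hy (mem_BX.1 me.1).2.2.1 (mem_BX.1 mf.1).2.2.1 hne hov with h | h | h | h
    · exact hD2 e he f hf h
    · exact hD2 f hf e he h
    · exact nosh e me.1 f mf.1 me.2 mf.2 h
    · exact nosh f mf.1 e me.1 mf.2 me.2 h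
  · rw [← h2]
    refine le_trans (le_of_eq ?_) hD3
    symm
    apply Finset.sum_subset (Finset.filter_subset _ _)
    intro e he hne
    simp only [Finset.mem_filter, not_and, not_lt, Nat.le_zero] at hne
    exact hne he

theorem main (hx : Function.Injective x) (hy : Function.Injective y) (I : Finset ι) (m : ℕ) :
    ∀ B : Finset (ℤ × ℤ), (∀ D ⊆ BX x y I B, (∀ e ∈ D, ∀ f ∈ D, Ov x y e f → e = f) →
      D.card ≤ m) → ∃ Z : Finset (ℤ × ℤ), Z.card ≤ m ∧ ∀ e ∈ BX x y I B, ∃ z ∈ Z, InB x y z e := by
  classical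
  induction m with
  | zero =>
    intro B hB
    refine ⟨∅, by simp, ?_⟩
    intro e he
    have := hB {e} (by simpa using he) (by simp)
    simp at this
  | succ m ih =>
    intro B hB
    by_cases hz : ∃ z, ∀ D ⊆ BX x y I (insert z B), (∀ e ∈ D, ∀ f ∈ D, Ov x y e f → e = f) →
        D.card ≤ m
    · obtain ⟨z, hz⟩ := hz
      obtain ⟨Z, hZ1, hZ2⟩ := ih (insert z B) hz
      refine ⟨insert z Z, le_trans (Finset.card_insert_le _ _) (by omega), ?_⟩
      intro e he
      by_cases hze : InB x y z e
      · exact ⟨z, by simp, hze⟩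
      · rw [mem_BX] at he
        obtain ⟨z', h1, h2⟩ := hZ2 e (mem_BX.2 ⟨he.1, he.2.1, he.2.2.1, by
          intro z' hz'
          rcases Finset.mem_insert.1 hz' with rfl | h
          · exact hze
          · exact he.2.2.2 z' h⟩)
        exact ⟨z', by simp [h1], h2⟩
    · push Not at hz
      rcases (BX x y I B).eq_empty_or_nonempty with hem | ⟨e₀, he₀⟩
      · refine ⟨∅, by simp, ?_⟩
        rw [hem]
        simp
      · exfalso
        choose D hD1 hD2 hD3 using hz
        have ce₀ := (mem_BX.1 he₀).2.2.1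
        have hsub : ∀ z, D z ⊆ BX x y I B := by
          intro z e he
          have := mem_BX.1 (hD1 z he)
          exact mem_BX.2 ⟨this.1, this.2.1, this.2.2.1, fun z' hz' => this.2.2.2 z'
            (Finset.mem_insert_of_mem hz')⟩
        have havoid : ∀ z, ∀ e ∈ D z, ¬ InB x y z e := by
          intro z e he
          exact (mem_BX.1 (hD1 z he)).2.2.2 z (Finset.mem_insert_self _ _)
        set G₀ := (GR x y).filter (fun z => InB x y z e₀) with hG₀
        have hne : G₀.Nonempty := by
          refine ⟨(x e₀.1, y e₀.1), ?_⟩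
          rw [hG₀, Finset.mem_filter]
          refine ⟨mem_GR _ _, ?_⟩
          unfold Cov at ce₀
          unfold InB
          simp only
          omega
        set k := G₀.card with hk
        have hkpos : 0 < k := Finset.card_pos.2 hne
        let w : ι × ι → ℕ := fun g => ∑ z ∈ G₀, (if g ∈ D z then 1 else 0) +
          (if g = e₀ then 1 else 0)
        have hsum : ∀ c : ι × ι → ℕ, ∑ g ∈ BX x y I B, w g * c g =
            ∑ z ∈ G₀, ∑ g ∈ D z, c g + c e₀ := by
          intro c
          simp only [w, add_mul, Finset.sum_add_distrib]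
          congr 1
          · simp only [Finset.sum_mul]
            rw [Finset.sum_comm]
            refine Finset.sum_congr rfl (fun z _ => ?_)
            simp only [ite_mul, one_mul, zero_mul]
            rw [Finset.sum_ite_mem, Finset.inter_eq_right.2 (hsub z)]
          · simp [he₀]
        obtain ⟨D', hD'1, hD'2, hD'3⟩ := frac hx hy I B k w (by
          intro z hz
          rw [hsum]
          have one : ∀ z', ∑ g ∈ D z', cv x y z g ≤ 1 := by
            intro z'
            by_contra hcon
            push Not at hcon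
            have : ∑ g ∈ D z', cv x y z g = ((D z').filter (fun g => InB x y z g)).card := by
              unfold cv
              rw [Finset.card_filter]
            rw [this] at hcon
            obtain ⟨a, ha, b, hb, hab⟩ := Finset.one_lt_card.1 hcon
            rw [Finset.mem_filter] at ha hb
            refine hab (hD2 z' a ha.1 b hb.1 ?_)
            have h1 := ha.2
            have h2 := hb.2
            unfold InB at h1 h2
            unfold Ov
            omega
          by_cases hz0 : z ∈ G₀
          · have h1 : ∑ z' ∈ G₀, ∑ g ∈ D z', cv x y z g ≤ k - 1 := by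
              rw [← Finset.add_sum_erase _ _ hz0]
              have : ∑ g ∈ D z, cv x y z g = 0 := by
                apply Finset.sum_eq_zero
                intro g hg
                exact cv_zero (havoid z g hg)
              rw [this, zero_add]
              calc ∑ z' ∈ G₀.erase z, ∑ g ∈ D z', cv x y z g ≤ ∑ z' ∈ G₀.erase z, 1 :=
                    Finset.sum_le_sum (fun z' _ => one z')
                _ = k - 1 := by
                    rw [Finset.sum_const, smul_eq_mul, mul_one, Finset.card_erase_of_mem hz0]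
            have h2 : cv x y z e₀ ≤ 1 := by
              unfold cv
              split_ifs <;> simp
            omega
          · have h1 : cv x y z e₀ = 0 := by
              apply cv_zero
              intro h
              exact hz0 (by rw [hG₀, Finset.mem_filter]; exact ⟨hz, h⟩)
            rw [h1, add_zero]
            calc ∑ z' ∈ G₀, ∑ g ∈ D z', cv x y z g ≤ ∑ z' ∈ G₀, 1 :=
                  Finset.sum_le_sum (fun z' _ => one z')
              _ = k := by rw [Finset.sum_const, smul_eq_mul, mul_one])
        have h4 : ∑ g ∈ BX x y I B, w g = ∑ z ∈ G₀, (D z).card + 1 := by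
          have := hsum (fun _ => 1)
          simpa using this
        have h5 : k * (m + 1) ≤ ∑ z ∈ G₀, (D z).card := by
          calc k * (m + 1) = ∑ z ∈ G₀, (m + 1) := by
                rw [Finset.sum_const, smul_eq_mul]
            _ ≤ _ := Finset.sum_le_sum (fun z _ => hD3 z)
        have h6 := hB D' hD'1 hD'2
        have h7 : k * D'.card ≤ k * (m + 1) := Nat.mul_le_mul_left _ h6
        omega

end MMaux

open MMaux in
theorem minmax {ι : Type*} [Fintype ι] [DecidableEq ι] (x y : ι → ℤ) (hx : Function.Injective x)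
    (hy : Function.Injective y) (I : Finset ι) :
    ∃ Q : Finset (ι × ι), Sys x y I Q ∧ ∃ Z : Finset (ℤ × ℤ), Z.card ≤ Q.card ∧
      ∀ p ∈ I, ∀ q ∈ I, Cov x y (p, q) → ∃ z ∈ Z, InB x y z (p, q) := by
  classical
  have hne : ((BX x y I ∅).powerset.filter
      (fun D => ∀ e ∈ D, ∀ f ∈ D, Ov x y e f → e = f)).Nonempty :=
    ⟨∅, by simp⟩
  obtain ⟨Q, hQ, hmax⟩ := Finset.exists_max_image _ (fun D => D.card) hne
  rw [Finset.mem_filter, Finset.mem_powerset] at hQ
  refine ⟨Q, ⟨fun e he => (mem_BX.1 (hQ.1 he)).1, fun e he => (mem_BX.1 (hQ.1 he)).2.1,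
    fun e he => (mem_BX.1 (hQ.1 he)).2.2.1, hQ.2⟩, ?_⟩
  obtain ⟨Z, hZ1, hZ2⟩ := main hx hy I Q.card ∅ (by
    intro D hD1 hD2
    exact hmax D (by rw [Finset.mem_filter, Finset.mem_powerset]; exact ⟨hD1, hD2⟩))
  refine ⟨Z, hZ1, ?_⟩
  intro p hp q hq hc
  exact hZ2 (p, q) (mem_BX.2 ⟨hp, hq, hc, by simp⟩)

end Pool.Agent.helper11.WH
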